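import Pool.Agent.H654R4.All

set_option autoImplicit false

/-!
The conjectured region of `L^p`-`L^r` averaging over `H_k`, `k` odd, is wrong: `(d, k) = (5, 3)`.

Idea of the proof.  `H = H_3 ⊂ F^5` is given by `x1^2+x2^2+x3^2 = x4^2`, `x1^3+x2^3+x3^3 = x5^3`.
Let `N(z)` be the number of `x ∈ H` with `x - z ∈ H`.  The planes of the quadric cone
`x1^2+x2^2+x3^2 = x4^2` form two one-parameter families, and the cubic form `x1^3+x2^3+x3^3` is not
the cube of a linear form on any of them.  From this we show that `N(z) ≤ K q` for all `z ≠ 0`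
outside five lines through `0`, where `N(z) ≤ K q^2`.  This gives the restricted estimate
`⟨1_E * σ, 1_F⟩ ≤ C (|E||F|)^(5/7)` (normalised sizes), hence `L^p → L^r` for
`(1/p, 1/r) = (0.7, 0.3)`, whereas all points of the conjectured region satisfy
`1/p - 1/r ≤ 1/3`.
-/

open scoped ENNReal

namespace Pool.Agent.Results.MP_a1ab69_an.RegionDisproved

/-- The variety `H_k = {x ∈ F^d : h_1(x) = ⋯ = h_{d-k}(x) = 0}`, where
`h_j(x) = x_1^(j+1) + ⋯ + x_k^(j+1) - x_{k+j}^(j+1)`.  Coordinates are numbered from `0` here, so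
that the coordinate `i ≥ k` belongs to `j = i - k + 1`. -/
def variety (d k : ℕ) (F : Type) [Field F] [Fintype F] [DecidableEq F] : Finset (Fin d → F) :=
  Finset.univ.filter (fun x : Fin d → F => ∀ i : Fin d, k ≤ i.val →
    ∑ l ∈ Finset.univ.filter (fun l : Fin d => l.val < k),
      x l ^ (i.val - k + 2) = x i ^ (i.val - k + 2))

/-- The average `f ∗ dσ_k (y) = |H_k|^{-1} ∑_{x ∈ H_k} f (y - x)`. -/
noncomputable def average (d k : ℕ) {F : Type} [Field F] [Fintype F] [DecidableEq F]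
    (f : (Fin d → F) → ℂ) (y : Fin d → F) : ℂ :=
  ((variety d k F).card : ℂ)⁻¹ * ∑ x ∈ variety d k F, f (y - x)

/-- The norm `‖f‖_{L^p(dx)}` for the normalised counting measure `dx` of `F^d`:
`(q^{-d} ∑ |f|^p)^{1/p}`, that is `q^{-d/p}` times the `ℓ^p` norm (the maximum if `p = ∞`). -/
noncomputable def normLp (d : ℕ) {F : Type} [Field F] [Fintype F] [DecidableEq F] (p : ℝ≥0∞)
    (f : (Fin d → F) → ℂ) : ℝ :=
  (Fintype.card F : ℝ) ^ (-(d : ℝ) * (p⁻¹).toReal) *
    ‖(WithLp.toLp p f : PiLp p (fun _ : Fin d → F => ℂ))‖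

/-- `𝔓(p,r)` of Q2: `‖f ∗ dσ_k‖_r ≤ C ‖f‖_p` for all `f`, uniformly in all finite fields of
sufficiently large characteristic in which `-1` is a square. -/
def AveragingBound (d k : ℕ) (p r : ℝ≥0∞) : Prop :=
  ∃ (N : ℕ) (C : ℝ), ∀ (F : Type) [Field F] [Fintype F] [DecidableEq F],
    N < ringChar F → IsSquare (-1 : F) → ∀ f : (Fin d → F) → ℂ,
      normLp d r (average d k f) ≤ C * normLp d p f

/-- The point `S_{d,k}`. -/
noncomputable def pointS (d k : ℕ) : ℝ × ℝ :=
  ((d * k - 2 * k + d) / (k * (2 * d - k - 1)), ((k + 1) * (d - k)) / (k * (2 * d - k - 1)))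

/-- The point `T_{d,k}`. -/
noncomputable def pointT (d k : ℕ) : ℝ × ℝ :=
  ((d * (k - 1)) / (k * (2 * d - k - 1)), ((d - k) * (k - 1)) / (k * (2 * d - k - 1)))

/-- The conjectured region `conv {P_{0,0}, P_{0,1}, P_{1,1}, S_{d,k}, T_{d,k}}`. -/
noncomputable def region (d k : ℕ) : Set (ℝ × ℝ) :=
  convexHull ℝ {(0, 0), (0, 1), (1, 1), pointS d k, pointT d k}

theorem region_eq : region 5 3 = Pool.H654R4.hull 5 3 := by
  unfold region Pool.H654R4.hull pointS pointT
  rfl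

/-- For `(d, k) = (5, 3)` the averages are bounded from `L^(10/7)` to `L^(10/3)`, although
`(7/10, 3/10)` is not in the conjectured region; so the equivalence of Q2 is false. -/
theorem result :
    AveragingBound 5 3 (ENNReal.ofReal (10 / 7)) (ENNReal.ofReal (10 / 3)) ∧
    ((7 / 10 : ℝ), (3 / 10 : ℝ)) ∉ region 5 3 ∧
    ¬ (∀ d k : ℕ, 3 ≤ k → k + 2 ≤ d → Odd k → ∀ p r : ℝ≥0∞, 1 ≤ p → 1 ≤ r →
        (AveragingBound d k p r ↔ ((p⁻¹).toReal, (r⁻¹).toReal) ∈ region d k)) := by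
  have h1 : AveragingBound 5 3 (ENNReal.ofReal (10 / 7)) (ENNReal.ofReal (10 / 3)) :=
    Pool.H654R4.final
  have h2 : ((7 / 10 : ℝ), (3 / 10 : ℝ)) ∉ region 5 3 := by
    rw [region_eq]
    exact Pool.H654R4.not_mem_hull
  refine ⟨h1, h2, ?_⟩
  intro h
  have h3 := (h 5 3 le_rfl le_rfl (by decide) (ENNReal.ofReal (10 / 7)) (ENNReal.ofReal (10 / 3))
    (by rw [ENNReal.one_le_ofReal]; norm_num) (by rw [ENNReal.one_le_ofReal]; norm_num)).mp h1
  have e1 : ((ENNReal.ofReal (10 / 3))⁻¹).toReal = 3 / 10 := by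
    rw [ENNReal.toReal_inv, ENNReal.toReal_ofReal (by norm_num)]
    norm_num
  have e2 : ((ENNReal.ofReal (10 / 7))⁻¹).toReal = 7 / 10 := by
    rw [ENNReal.toReal_inv, ENNReal.toReal_ofReal (by norm_num)]
    norm_num
  rw [e1, e2] at h3
  exact h2 h3

end Pool.Agent.Results.MP_a1ab69_an.RegionDisproved
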